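import Mathlib

namespace Pool.Agent.Results.MP_c59173_co.Counter

open Finset

/-- The ordered product set `T 0 ⋆ T 1 ⋆ ⋯ ⋆ T (n-1)`. -/
def prodSet {G : Type} [Group G] [DecidableEq G] {n : ℕ} (T : Fin n → Finset G) : Finset G :=
  (Fintype.piFinset T).image (fun s => (List.ofFn s).prod)

/-- `N_A`: the largest size of the product set in which `S i` is kept for `i ∈ A` and replaced by
a singleton `{x i}` with `x i ∈ S i` for `i ∉ A`. -/
def NA {G : Type} [Group G] [DecidableEq G] {n : ℕ} (S : Fin n → Finset G) (A : Finset (Fin n)) :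
    ℕ :=
  (Fintype.piFinset S).sup (fun x => (prodSet (fun i => if i ∈ A then S i else {x i})).card)

abbrev P := Equiv.Perm (Fin 20)

def mk (f g : Fin 20 → Fin 20) (h1 : ∀ x, g (f x) = x) (h2 : ∀ x, f (g x) = x) : P :=
  ⟨f, g, h1, h2⟩

def t1 : P := mk ![1,0,3,2,5,4,7,6,9,8,11,10,13,12,15,14,17,16,19,18]
  ![1,0,3,2,5,4,7,6,9,8,11,10,13,12,15,14,17,16,19,18] (by decide) (by decide)
def t2 : P := mk ![2,3,0,1,6,7,4,5,10,11,8,9,14,15,12,13,18,19,16,17]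
  ![2,3,0,1,6,7,4,5,10,11,8,9,14,15,12,13,18,19,16,17] (by decide) (by decide)
def c1 : P := mk ![0, 19, 18, 1, 2, 4, 5, 3, 6, 8, 9, 7, 10, 12, 13, 11, 14, 16, 17, 15]
  ![0, 3, 4, 7, 5, 6, 8, 11, 9, 10, 12, 15, 13, 14, 16, 19, 17, 18, 2, 1] (by decide) (by decide)
def c2 : P := mk ![2, 19, 18, 3, 0, 4, 5, 1, 6, 8, 9, 7, 10, 12, 13, 11, 14, 16, 17, 15]
  ![4, 7, 0, 3, 5, 6, 8, 11, 9, 10, 12, 15, 13, 14, 16, 19, 17, 18, 2, 1] (by decide) (by decide)
def c3 : P := mk ![4, 19, 18, 5, 0, 2, 3, 1, 6, 8, 9, 7, 10, 12, 13, 11, 14, 16, 17, 15]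
  ![4, 7, 5, 6, 0, 3, 8, 11, 9, 10, 12, 15, 13, 14, 16, 19, 17, 18, 2, 1] (by decide) (by decide)
def c4 : P := mk ![18, 6, 19, 7, 0, 2, 1, 3, 4, 8, 5, 9, 10, 12, 11, 13, 14, 16, 15, 17]
  ![4, 6, 5, 7, 8, 10, 1, 3, 9, 11, 12, 14, 13, 15, 16, 18, 17, 19, 0, 2] (by decide) (by decide)
def c5 : P := mk ![18, 8, 19, 9, 0, 2, 1, 3, 4, 6, 5, 7, 10, 12, 11, 13, 14, 16, 15, 17]
  ![4, 6, 5, 7, 8, 10, 9, 11, 1, 3, 12, 14, 13, 15, 16, 18, 17, 19, 0, 2] (by decide) (by decide)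
def c6 : P := mk ![18, 10, 19, 11, 0, 2, 1, 3, 4, 6, 5, 7, 8, 12, 9, 13, 14, 16, 15, 17]
  ![4, 6, 5, 7, 8, 10, 9, 11, 12, 14, 1, 3, 13, 15, 16, 18, 17, 19, 0, 2] (by decide) (by decide)
def c7 : P := mk ![18, 19, 12, 13, 0, 1, 2, 3, 4, 5, 6, 7, 8, 9, 10, 11, 14, 15, 16, 17]
  ![4, 5, 6, 7, 8, 9, 10, 11, 12, 13, 14, 15, 2, 3, 16, 17, 18, 19, 0, 1] (by decide) (by decide)
def c8 : P := mk ![18, 19, 14, 15, 0, 1, 2, 3, 4, 5, 6, 7, 8, 9, 10, 11, 12, 13, 16, 17]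
  ![4, 5, 6, 7, 8, 9, 10, 11, 12, 13, 14, 15, 16, 17, 2, 3, 18, 19, 0, 1] (by decide) (by decide)

def SL : Finset P := {1, t1}
def SC : Finset P := {c1, c2, c3, c4, c5, c6, c7, c8}
def SB : Finset P := {1, t1, t2}
lemma exH : ∃ H : Finset P, ∀ g, g ∈ H ↔ g 0 = 0 :=
  ⟨univ.filter (fun g => g 0 = 0), fun g => by simp⟩
noncomputable def SH : Finset P := Classical.choose exH
lemma mem_SH (g : P) : g ∈ SH ↔ g 0 = 0 := Classical.choose_spec exH g
noncomputable def SS : Fin 4 → Finset P := ![SL, SC, SB, SH]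

lemma mem_prodSet (T : Fin 4 → Finset P) (g : P) :
    g ∈ prodSet T ↔ ∃ a ∈ T 0, ∃ b ∈ T 1, ∃ c ∈ T 2, ∃ d ∈ T 3, a * b * c * d = g := by
  unfold prodSet
  simp only [mem_image, Fintype.mem_piFinset]
  constructor
  · rintro ⟨s, hs, rfl⟩
    refine ⟨s 0, hs 0, s 1, hs 1, s 2, hs 2, s 3, hs 3, ?_⟩
    simp [List.ofFn_succ, mul_assoc]
  · rintro ⟨a, ha, b, hb, c, hc, d, hd, rfl⟩
    refine ⟨![a, b, c, d], ?_, ?_⟩
    · intro i
      fin_cases i
      · exact ha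
      · exact hb
      · exact hc
      · exact hd
    · simp [List.ofFn_succ, mul_assoc]

lemma fiber_card (q : Fin 20) : (univ.filter (fun g : P => g 0 = q)).card = SH.card := by
  refine card_bij' (fun g _ => Equiv.swap 0 q * g) (fun g _ => Equiv.swap 0 q * g) ?_ ?_ ?_ ?_
  · intro g hg
    simp only [mem_filter, mem_univ, true_and, mem_SH] at hg ⊢
    simp [hg]
  · intro g hg
    simp only [mem_filter, mem_univ, true_and, mem_SH] at hg ⊢
    simp [hg]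
  · intro g _
    simp [← mul_assoc]
  · intro g _
    simp [← mul_assoc]

lemma over_card (Q : Finset (Fin 20)) :
    (univ.filter (fun g : P => g 0 ∈ Q)).card = Q.card * SH.card := by
  rw [card_eq_sum_card_fiberwise (f := fun g : P => g 0) (t := Q)]
  · rw [sum_congr rfl (g := fun _ => SH.card), sum_const, smul_eq_mul]
    intro q hq
    rw [← fiber_card q, filter_filter]
    congr 1
    ext g
    simp only [mem_filter, mem_univ, true_and]
    constructor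
    · exact fun h => h.2
    · exact fun h => ⟨h ▸ hq, h⟩
  · intro g hg
    simpa using hg

lemma SH_pos : 0 < SH.card := card_pos.2 ⟨1, by simp [mem_SH]⟩

lemma big : 18 * SH.card ≤ (prodSet SS).card := by
  have h18 : (univ.filter (fun q : Fin 20 => q ≠ 16 ∧ q ≠ 17)).card = 18 := by decide
  have key : ∀ q : Fin 20, q ≠ 16 ∧ q ≠ 17 → ∃ a ∈ SL, ∃ b ∈ SC, ∃ c ∈ SB, (a * b * c) 0 = q := by
    unfold SL SC SB
    simp only [mem_insert, mem_singleton, exists_eq_or_imp, exists_eq_left]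
    decide +kernel
  rw [← h18, ← over_card]
  apply card_le_card
  intro g hg
  simp only [mem_filter, mem_univ, true_and] at hg
  obtain ⟨a, ha, b, hb, c, hc, h⟩ := key _ hg
  rw [mem_prodSet]
  refine ⟨a, ha, b, hb, c, hc, (a * b * c)⁻¹ * g, ?_, by group⟩
  show _ ∈ SH
  rw [mem_SH, Equiv.Perm.mul_apply, ← h]
  exact (a * b * c).symm_apply_apply 0

lemma n02 : NA SS {0, 2} ≤ 4 := by
  unfold NA
  apply Finset.sup_le
  intro x hx
  rw [Fintype.mem_piFinset] at hx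
  have hc : x 1 ∈ SC := hx 1
  have key : ∀ b ∈ SC, ∃ u v : P, ∀ a ∈ SL, ∀ c ∈ SB,
      a * b * c = u ∨ a * b * c = t1 * u ∨ a * b * c = v ∨ a * b * c = t1 * v := by
    unfold SL SC SB
    simp only [mem_insert, mem_singleton, forall_eq_or_imp, forall_eq]
    refine ⟨⟨c1, c1 * t1, ?_⟩, ⟨c2, c2 * t1, ?_⟩, ⟨c3, c3 * t1, ?_⟩, ⟨c4, c4 * t1, ?_⟩,
      ⟨c5, c5 * t1, ?_⟩, ⟨c6, c6 * t1, ?_⟩, ⟨c7, c7 * t2, ?_⟩, ⟨c8, c8 * t2, ?_⟩⟩ <;>
    decide +kernel
  obtain ⟨u, v, huv⟩ := key _ hc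
  calc _ ≤ ({u * x 3, t1 * u * x 3, v * x 3, t1 * v * x 3} : Finset P).card := by
        apply card_le_card
        intro g hg
        rw [mem_prodSet] at hg
        obtain ⟨a, ha, b, hb, c, hc', d, hd, rfl⟩ := hg
        have ha' : a ∈ SL := by simpa [SS] using ha
        have hb' : b = x 1 := by simpa using hb
        have hc'' : c ∈ SB := by simpa [SS] using hc'
        have hd' : d = x 3 := by simpa using hd
        subst hb' hd'
        simp only [mem_insert, mem_singleton]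
        rcases huv a ha' c hc'' with h | h | h | h <;> simp [h]
    _ ≤ 4 := card_le_four

lemma n13 : NA SS {1, 3} ≤ 4 * SH.card := by
  unfold NA
  apply Finset.sup_le
  intro x hx
  rw [Fintype.mem_piFinset] at hx
  have ha : x 0 ∈ SL := hx 0
  have hc : x 2 ∈ SB := hx 2
  have key : ∀ a ∈ SL, ∀ c ∈ SB,
      (univ.filter (fun q : Fin 20 => ∃ b ∈ SC, (a * b * c) 0 = q)).card ≤ 4 := by
    unfold SL SC SB
    simp only [mem_insert, mem_singleton, forall_eq_or_imp, forall_eq, exists_eq_or_imp,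
      exists_eq_left]
    decide +kernel
  refine le_trans ?_ (Nat.mul_le_mul_right _ (key _ ha _ hc))
  rw [← over_card]
  apply card_le_card
  intro g hg
  rw [mem_prodSet] at hg
  obtain ⟨a, ha', b, hb, c, hc', d, hd, rfl⟩ := hg
  have ha'' : a = x 0 := by simpa using ha'
  have hb' : b ∈ SC := by simpa [SS] using hb
  have hc'' : c = x 2 := by simpa using hc'
  have hd' : d ∈ SH := by simpa [SS] using hd
  subst ha'' hc''
  simp only [mem_SH, mem_filter, mem_univ, true_and] at hd' ⊢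
  exact ⟨b, hb', by rw [Equiv.Perm.mul_apply _ d, hd']⟩

theorem result : ∃ (G : Type) (_ : Group G) (_ : DecidableEq G) (n : ℕ) (S : Fin n → Finset G),
    1 ≤ n ∧ (∀ i, (S i).Nonempty) ∧
    ∀ lam : Fin n → ℝ, (∀ i, 0 < lam i) → ∏ i, lam i = ((prodSet S).card : ℝ) →
      ∃ A : Finset (Fin n), (NA S A : ℝ) < ∏ i ∈ A, lam i := by
  refine ⟨P, inferInstance, inferInstance, 4, SS, by norm_num, ?_, ?_⟩
  · intro i
    fin_cases i
    · exact ⟨1, by simp [SS, SL]⟩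
    · exact ⟨c1, by simp [SS, SC]⟩
    · exact ⟨1, by simp [SS, SB]⟩
    · exact ⟨1, by simp [SS, mem_SH]⟩
  · intro lam hpos hprod
    by_contra hcon
    push Not at hcon
    have h1 := hcon {0, 2}
    have h2 := hcon {1, 3}
    rw [prod_pair (by decide)] at h1 h2
    rw [Fin.prod_univ_four] at hprod
    have b1 : ((NA SS {0, 2} : ℕ) : ℝ) ≤ 4 := by exact_mod_cast n02
    have b2 : ((NA SS {1, 3} : ℕ) : ℝ) ≤ 4 * (SH.card : ℝ) := by exact_mod_cast n13
    have b3 : 18 * (SH.card : ℝ) ≤ ((prodSet SS).card : ℝ) := by exact_mod_cast big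
    have b4 : (0 : ℝ) < SH.card := by exact_mod_cast SH_pos
    have e1 : lam 0 * lam 2 ≤ 4 := h1.trans b1
    have e2 : lam 1 * lam 3 ≤ 4 * (SH.card : ℝ) := h2.trans b2
    have p2 : 0 < lam 1 * lam 3 := mul_pos (hpos 1) (hpos 3)
    have e3 : (lam 0 * lam 2) * (lam 1 * lam 3) ≤ 4 * (4 * (SH.card : ℝ)) :=
      mul_le_mul e1 e2 p2.le (by norm_num)
    nlinarith

end Pool.Agent.Results.MP_c59173_co.Counter
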